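import Mathlib
import Pool.Agent.Q7.LO.Stm

/-!
# Orderings of the eigenvalue sequence of a real Leonard system: the case `β ≥ 2`
-/

set_option autoImplicit false

namespace Q251.LO

open Q7.LO

/-- a property which is inherited by larger numbers has a threshold -/
theorem thr (n : ℕ) (P : ℕ → Prop) (hP : ∀ s t, s ≤ t → t ≤ n → P s → P t) :
    ∃ s0, s0 ≤ n + 1 ∧ ∀ s, s ≤ n → (P s ↔ s0 ≤ s) := by
  classical
  by_cases h : ∃ s, s ≤ n ∧ P s
  · refine ⟨Nat.find h, ?_, ?_⟩
    · have := (Nat.find_spec h).1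
      omega
    · intro s hs
      constructor
      · intro hps
        exact Nat.find_min' h ⟨hs, hps⟩
      · intro hle
        exact hP _ _ hle hs (Nat.find_spec h).2
  · refine ⟨n + 1, le_rfl, ?_⟩
    intro s hs
    constructor
    · intro hps
      exact absurd ⟨s, hs, hps⟩ h
    · intro hle
      omega

/-- the cosine sequence whose maximum is at `s0 / 2 - 1 / 4` -/
noncomputable def cs (d s0 : ℕ) (i : ℕ) : ℝ :=
  Real.cos (Real.pi / (d + 2) * (i - ((s0 : ℝ) / 2 - 1 / 4)))

theorem cos_aux (d : ℕ) (x y : ℝ) (hy : |y| ≤ d + 1) (hxy : x ^ 2 < y ^ 2) :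
    Real.cos (Real.pi / (d + 2) * y) < Real.cos (Real.pi / (d + 2) * x) := by
  have hd : (0 : ℝ) < d + 2 := by positivity
  have hw : 0 < Real.pi / ((d : ℝ) + 2) := div_pos Real.pi_pos hd
  have habs : |x| < |y| := sq_lt_sq.mp hxy
  rw [← Real.cos_abs (Real.pi / (d + 2) * y), ← Real.cos_abs (Real.pi / (d + 2) * x),
    abs_mul, abs_mul, abs_of_pos hw]
  apply Real.strictAntiOn_cos
  · refine ⟨by positivity, ?_⟩
    have h1 : |x| ≤ (d : ℝ) + 2 := by linarith
    calc Real.pi / ((d : ℝ) + 2) * |x| ≤ Real.pi / ((d : ℝ) + 2) * (d + 2) := by gcongr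
      _ = Real.pi := by field_simp
  · refine ⟨by positivity, ?_⟩
    have h1 : |y| ≤ (d : ℝ) + 2 := by linarith
    calc Real.pi / ((d : ℝ) + 2) * |y| ≤ Real.pi / ((d : ℝ) + 2) * (d + 2) := by gcongr
      _ = Real.pi := by field_simp
  · exact mul_lt_mul_of_pos_left habs hw

theorem cs_abs (d s0 i : ℕ) (hs : s0 ≤ 2 * d + 1) (hi : i ≤ d) :
    |(i : ℝ) - ((s0 : ℝ) / 2 - 1 / 4)| ≤ d + 1 := by
  have h1 : (s0 : ℝ) ≤ 2 * d + 1 := by exact_mod_cast hs
  have h2 : (i : ℝ) ≤ d := by exact_mod_cast hi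
  have h3 : (0 : ℝ) ≤ s0 := by positivity
  have h4 : (0 : ℝ) ≤ i := by positivity
  have h5 : (0 : ℝ) ≤ d := by positivity
  rw [abs_le]
  constructor <;> linarith

theorem cs_gt (d s0 i j : ℕ) (hs : s0 ≤ 2 * d + 1) (hij : i < j) (hj : j ≤ d)
    (h : s0 ≤ i + j) : cs d s0 j < cs d s0 i := by
  apply cos_aux
  · exact cs_abs d s0 j hs hj
  · have h1 : (s0 : ℝ) ≤ i + j := by exact_mod_cast h
    have h2 : (i : ℝ) < j := by exact_mod_cast hij
    nlinarith [mul_pos (sub_pos.mpr h2) (by linarith : (0 : ℝ) < i + j - s0 + 1 / 2)]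

theorem cs_lt (d s0 i j : ℕ) (hs : s0 ≤ 2 * d + 1) (hij : i < j) (_hj : j ≤ d)
    (h : i + j < s0) : cs d s0 i < cs d s0 j := by
  apply cos_aux
  · exact cs_abs d s0 i hs (by omega)
  · have h1 : (i : ℝ) + j + 1 ≤ s0 := by exact_mod_cast h
    have h2 : (i : ℝ) < j := by exact_mod_cast hij
    nlinarith [mul_pos (sub_pos.mpr h2) (by linarith : (0 : ℝ) < s0 - 1 / 2 - i - j)]

/-- two sequences which order every pair in the same way -/
theorem sorts_of {d : ℕ} (σ : Equiv.Perm (Fin (d + 1))) (θ h : ℕ → ℝ)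
    (H : ∀ i j : ℕ, i < j → j ≤ d → (θ j < θ i → h j < h i) ∧ (θ i < θ j → h i < h j))
    (hs : Sorts σ θ) : Sorts σ h := by
  intro a b hab
  have h1 : θ (σ b : ℕ) < θ (σ a : ℕ) := hs hab
  show h (σ b : ℕ) < h (σ a : ℕ)
  rcases lt_trichotomy (σ a : ℕ) (σ b : ℕ) with h2 | h2 | h2
  · exact (H _ _ h2 (by omega)).1 h1
  · rw [h2] at h1
    exact absurd h1 (lt_irrefl _)
  · exact (H _ _ h2 (by omega)).2 h1

/-- the core: the difference factors with a monotone factor in `i + j` -/
theorem core {d : ℕ} (σ : Equiv.Perm (Fin (d + 1))) (θ f : ℕ → ℝ)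
    (hf : Monotone f ∨ Antitone f)
    (H : ∀ i j : ℕ, i < j → j ≤ d → ∃ p : ℝ, 0 < p ∧ θ j - θ i = p * f (i + j))
    (hs : Sorts σ θ) : RealRot σ := by
  have key : ∀ i j : ℕ, i < j → j ≤ d →
      (θ j < θ i → f (i + j) < 0) ∧ (θ i < θ j → 0 < f (i + j)) := by
    intro i j hij hj
    obtain ⟨p, hp, hE⟩ := H i j hij hj
    constructor
    · intro h
      by_contra hc
      have := mul_nonneg hp.le (not_lt.mp hc)
      linarith
    · intro h
      by_contra hc
      have := mul_nonpos_of_nonneg_of_nonpos hp.le (not_lt.mp hc)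
      linarith
  rcases hf with hf | hf
  · obtain ⟨s0, hs0, hs1⟩ := thr (2 * d) (fun s => 0 ≤ f s)
      (fun s t hst _ h => le_trans h (hf hst))
    refine ⟨Real.pi / (d + 2), Real.pi - Real.pi / (d + 2) * ((s0 : ℝ) / 2 - 1 / 4), ?_⟩
    have hE : (fun j : ℕ => Real.cos (Real.pi / (d + 2) * (j : ℝ) +
        (Real.pi - Real.pi / (d + 2) * ((s0 : ℝ) / 2 - 1 / 4)))) = fun j => - cs d s0 j := by
      funext j
      rw [cs, ← Real.cos_add_pi]
      congr 1
      ring
    rw [hE]
    refine sorts_of σ θ _ ?_ hs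
    intro i j hij hj
    constructor
    · intro h
      have h1 : ¬ (0 ≤ f (i + j)) := not_le.mpr ((key i j hij hj).1 h)
      rw [hs1 _ (by omega)] at h1
      have := cs_lt d s0 i j hs0 hij hj (by omega)
      linarith
    · intro h
      have h1 : (0 ≤ f (i + j)) := ((key i j hij hj).2 h).le
      rw [hs1 _ (by omega)] at h1
      have := cs_gt d s0 i j hs0 hij hj (by omega)
      linarith
  · obtain ⟨s0, hs0, hs1⟩ := thr (2 * d) (fun s => f s < 0)
      (fun s t hst _ h => lt_of_le_of_lt (hf hst) h)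
    refine ⟨Real.pi / (d + 2), - (Real.pi / (d + 2) * ((s0 : ℝ) / 2 - 1 / 4)), ?_⟩
    have hE : (fun j : ℕ => Real.cos (Real.pi / (d + 2) * (j : ℝ) +
        (- (Real.pi / (d + 2) * ((s0 : ℝ) / 2 - 1 / 4))))) = fun j => cs d s0 j := by
      funext j
      rw [cs]
      congr 1
      ring
    rw [hE]
    refine sorts_of σ θ _ ?_ hs
    intro i j hij hj
    constructor
    · intro h
      have h1 : f (i + j) < 0 := (key i j hij hj).1 h
      rw [hs1 _ (by omega)] at h1
      exact cs_gt d s0 i j hs0 hij hj (by omega)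
    · intro h
      have h1 : ¬ (f (i + j) < 0) := not_lt.mpr ((key i j hij hj).2 h).le
      rw [hs1 _ (by omega)] at h1
      exact cs_lt d s0 i j hs0 hij hj (by omega)

/-- closed form for `β > 2` -/
theorem closed (d : ℕ) (r q γ : ℝ) (θ : ℕ → ℝ) (hr : 1 < r) (hq : r * q = 1)
    (hrec : Rec d (r + q) γ θ) :
    ∃ a b c : ℝ, ∀ i, i ≤ d → θ i = a * r ^ i + b * q ^ i + c := by
  have hr0 : 0 < r := by linarith
  have hqr : q = r⁻¹ := eq_inv_of_mul_eq_one_right hq
  have hq1 : q < 1 := by rw [hqr]; exact inv_lt_one_of_one_lt₀ hr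
  have hq0 : 0 < q := by rw [hqr]; positivity
  have hne : r - q ≠ 0 := by linarith
  have hne2 : 2 - (r + q) ≠ 0 := by
    intro h0
    have h1 : (r - 1) * (1 - q) > 0 := mul_pos (by linarith) (by linarith)
    nlinarith
  obtain ⟨c, hc⟩ : ∃ c : ℝ, c * (2 - (r + q)) = γ := ⟨γ / (2 - (r + q)), by field_simp⟩
  refine ⟨((θ 1 - c) - q * (θ 0 - c)) / (r - q), (r * (θ 0 - c) - (θ 1 - c)) / (r - q), c, ?_⟩
  set a := ((θ 1 - c) - q * (θ 0 - c)) / (r - q) with ha
  set b := (r * (θ 0 - c) - (θ 1 - c)) / (r - q) with hb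
  have hab : a + b = θ 0 - c := by
    rw [ha, hb]; field_simp; ring
  have hab1 : a * r + b * q = θ 1 - c := by
    rw [ha, hb]; field_simp; ring
  intro i
  induction i using Nat.strong_induction_on with
  | _ i ih =>
    intro hi
    match i, ih, hi with
    | 0, _, _ => simp; linarith
    | 1, _, _ => simp; linarith
    | (k + 2), ih, hi =>
      have h0 := ih k (by omega) (by omega)
      have h1 := ih (k + 1) (by omega) (by omega)
      have h2 := hrec k hi
      have e1 : r ^ k * (r * q) = r ^ k := by rw [hq, mul_one]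
      have e2 : q ^ k * (r * q) = q ^ k := by rw [hq, mul_one]
      have : θ (k + 2) = γ - θ k + (r + q) * θ (k + 1) := by linarith
      rw [this, h0, h1, ← hc]
      have e3 : r ^ (k + 1) * q = r ^ k := by rw [pow_succ, mul_assoc, e1]
      have e4 : r * q ^ (k + 1) = q ^ k := by
        rw [pow_succ]
        calc r * (q ^ k * q) = q ^ k * (r * q) := by ring
          _ = q ^ k := e2
      calc c * (2 - (r + q)) - (a * r ^ k + b * q ^ k + c) +
            (r + q) * (a * r ^ (k + 1) + b * q ^ (k + 1) + c)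
          = a * r ^ (k + 2) + b * q ^ (k + 2) + c + a * (r ^ (k + 1) * q - r ^ k) +
            b * (r * q ^ (k + 1) - q ^ k) := by ring
        _ = a * r ^ (k + 2) + b * q ^ (k + 2) + c := by rw [e3, e4]; ring

theorem hyp_gt (d : ℕ) (β γ : ℝ) (θ : ℕ → ℝ) (σ : Equiv.Perm (Fin (d + 1))) (hβ : 2 < β)
    (hrec : Rec d β γ θ) (hs : Sorts σ θ) : RealRot σ := by
  obtain ⟨r, q, hr, hq, hrq⟩ : ∃ r q : ℝ, 1 < r ∧ r * q = 1 ∧ β = r + q := by
    have h4 : 0 ≤ β ^ 2 - 4 := by nlinarith
    refine ⟨(β + Real.sqrt (β ^ 2 - 4)) / 2, (β - Real.sqrt (β ^ 2 - 4)) / 2, ?_, ?_, ?_⟩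
    · have := Real.sqrt_nonneg (β ^ 2 - 4)
      linarith
    · have := Real.mul_self_sqrt h4
      nlinarith
    · ring
  subst hrq
  obtain ⟨a, b, c, habc⟩ := closed d r q γ θ hr hq hrec
  have hr0 : 0 < r := by linarith
  have hqr : q = r⁻¹ := eq_inv_of_mul_eq_one_right hq
  have hq1 : q < 1 := by rw [hqr]; exact inv_lt_one_of_one_lt₀ hr
  have hq0 : 0 < q := by rw [hqr]; positivity
  have hanti : Antitone fun s : ℕ => q ^ s := pow_right_anti₀ hq0.le hq1.le
  refine core σ θ (fun s => a - b * q ^ s) ?_ ?_ hs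
  · rcases le_total 0 b with hb | hb
    · left
      intro s t hst
      have := mul_le_mul_of_nonneg_left (hanti hst) hb
      simp only at this ⊢
      linarith
    · right
      intro s t hst
      have := mul_le_mul_of_nonpos_left (hanti hst) hb
      simp only at this ⊢
      linarith
  · intro i j hij hj
    refine ⟨r ^ j - r ^ i, ?_, ?_⟩
    · have := pow_lt_pow_right₀ hr hij
      linarith
    · rw [habc j hj, habc i (by omega)]
      have hp : ∀ n : ℕ, r ^ n * q ^ n = 1 := by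
        intro n
        rw [← mul_pow, hq, one_pow]
      have e1 : r ^ j * q ^ (i + j) = q ^ i := by
        rw [pow_add]
        calc r ^ j * (q ^ i * q ^ j) = q ^ i * (r ^ j * q ^ j) := by ring
          _ = q ^ i := by rw [hp, mul_one]
      have e2 : r ^ i * q ^ (i + j) = q ^ j := by
        rw [pow_add]
        calc r ^ i * (q ^ i * q ^ j) = q ^ j * (r ^ i * q ^ i) := by ring
          _ = q ^ j := by rw [hp, mul_one]
      calc a * r ^ j + b * q ^ j + c - (a * r ^ i + b * q ^ i + c)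
          = a * (r ^ j - r ^ i) - b * (q ^ i - q ^ j) := by ring
        _ = a * (r ^ j - r ^ i) - b * (r ^ j * q ^ (i + j) - r ^ i * q ^ (i + j)) := by
            rw [e1, e2]
        _ = (r ^ j - r ^ i) * (a - b * q ^ (i + j)) := by ring

theorem hyp_eq (d : ℕ) (γ : ℝ) (θ : ℕ → ℝ) (σ : Equiv.Perm (Fin (d + 1)))
    (hrec : Rec d 2 γ θ) (hs : Sorts σ θ) : RealRot σ := by
  have hcl : ∀ i : ℕ, i ≤ d →
      θ i = θ 0 + (θ 1 - θ 0 - γ / 2) * i + γ / 2 * (i : ℝ) ^ 2 := by
    intro i
    induction i using Nat.strong_induction_on with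
    | _ i ih =>
      intro hi
      match i, ih, hi with
      | 0, _, _ => simp
      | 1, _, _ => simp; ring
      | (k + 2), ih, hi =>
        have h0 := ih k (by omega) (by omega)
        have h1 := ih (k + 1) (by omega) (by omega)
        have h2 := hrec k hi
        have : θ (k + 2) = γ - θ k + 2 * θ (k + 1) := by linarith
        rw [this, h0, h1]
        push_cast
        ring
  refine core σ θ (fun s => (θ 1 - θ 0 - γ / 2) + γ / 2 * (s : ℝ)) ?_ ?_ hs
  · rcases le_total 0 γ with hb | hb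
    · left
      intro s t hst
      have h1 : (s : ℝ) ≤ t := by exact_mod_cast hst
      have := mul_le_mul_of_nonneg_left h1 (by linarith : (0 : ℝ) ≤ γ / 2)
      simp only
      linarith
    · right
      intro s t hst
      have h1 : (s : ℝ) ≤ t := by exact_mod_cast hst
      have := mul_le_mul_of_nonpos_left h1 (by linarith : γ / 2 ≤ (0 : ℝ))
      simp only
      linarith
  · intro i j hij hj
    refine ⟨(j : ℝ) - i, ?_, ?_⟩
    · have : (i : ℝ) < j := by exact_mod_cast hij
      linarith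
    · rw [hcl j hj, hcl i (by omega)]
      push_cast
      ring

/-- JOB HYP -/
theorem tHyp : SHYP := by
  intro d β γ θ σ hβ hrec hs
  rcases eq_or_lt_of_le hβ with h | h
  · subst h
    exact hyp_eq d γ θ σ hrec hs
  · exact hyp_gt d β γ θ σ h hrec hs

end Q251.LO
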